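import Pool.Agent.W312.WT.Stm

set_option autoImplicit false

/-! WT-SRna: properties of the antithetic rounding. -/

namespace Pool.Agent.W196.WT

open Pool.Agent.W312.WT

theorem rd_cases {α : Type} (θ φ : ℝ) (j : ℕ) (a b : α) : rd θ φ j a b = a ∨ rd θ φ j a b = b := by
  unfold rd
  split_ifs <;> simp

theorem chain_mono {p n : ℕ} {x : ℕ → ℝ} (h : Chain p n x) :
    ∀ i j, i ≤ j → j ≤ n → x i ≤ x j := by
  intro i j hij
  induction j, hij using Nat.le_induction with
  | base => intro _; exact le_rfl
  | succ j hij ih =>
    intro hj
    exact (ih (by omega)).trans (h.2 j (by omega)).1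

theorem proof_SRna : Pool.Agent.W312.WT.SRna := by
  intro p n S dn up x θ hp hLat hDU hCh hθ0 hθ1 y hy
  have hdS : ∀ t, dn t ∈ S := fun t => (hDU t).1
  have huS : ∀ t, up t ∈ S := fun t => (hDU t).2.1
  have hdt : ∀ t, (dn t : ℝ) ≤ t := fun t => (hDU t).2.2.1
  have hut : ∀ t, t ≤ (up t : ℝ) := fun t => (hDU t).2.2.2.1
  have hdmax : ∀ t, ∀ s ∈ S, (s : ℝ) ≤ t → s ≤ dn t := fun t => (hDU t).2.2.2.2.1
  have humin : ∀ t, ∀ s ∈ S, t ≤ (s : ℝ) → up t ≤ s := fun t => (hDU t).2.2.2.2.2
  have hdu : ∀ t, dn t ≤ up t := by
    intro t
    have := (hdt t).trans (hut t)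
    exact_mod_cast this
  have hyS : ∀ j, y j ∈ S := by
    intro j
    rw [hy j]
    rcases rd_cases θ (posi dn up (x j)) j (dn (x j)) (up (x j)) with h | h <;> rw [h]
    · exact hdS _
    · exact huS _
  have hyl : ∀ j, dn (x j) ≤ y j := by
    intro j
    rw [hy j]
    rcases rd_cases θ (posi dn up (x j)) j (dn (x j)) (up (x j)) with h | h <;> rw [h]
    exact hdu _
  have hyu : ∀ j, y j ≤ up (x j) := by
    intro j
    rw [hy j]
    rcases rd_cases θ (posi dn up (x j)) j (dn (x j)) (up (x j)) with h | h <;> rw [h]
    exact hdu _
  have h0S : (0 : ℤ) ∈ S := hLat.zero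
  have hx0 : x 0 = 0 := hCh.1
  have hmono := chain_mono hCh
  refine ⟨?_, ?_, ?_, ?_⟩
  · have h1 : 0 ≤ dn (x 0) := hdmax (x 0) 0 h0S (by rw [hx0]; simp)
    have h2 : up (x 0) ≤ 0 := humin (x 0) 0 h0S (by rw [hx0]; simp)
    have h3 := hyl 0
    have h4 := hyu 0
    omega
  · intro j hj
    refine ⟨hyS j, ?_⟩
    have h1 : x 0 ≤ x j := hmono 0 j (Nat.zero_le _) hj
    rw [hx0] at h1
    have h2 : 0 ≤ dn (x j) := hdmax (x j) 0 h0S (by simpa using h1)
    exact h2.trans (hyl j)
  · intro i j hij hj s hs hsy
    have h1 : x i ≤ x j := hmono i j hij.le hj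
    have h2 : up (x i) ≤ up (x j) := humin (x i) _ (huS _) (h1.trans (hut _))
    have h3 : ¬ x j ≤ (s : ℝ) := by
      intro h
      have h4 := humin (x j) s hs h
      have h5 := hyu i
      omega
    push Not at h3
    exact (hdmax (x j) s hs h3.le).trans (hyl j)
  · intro j hj
    obtain ⟨hm, hK⟩ := hCh.2 j hj
    set K : ℤ := ((j : ℤ) + 1) * p with hKdef
    have hKr : ((K : ℤ) : ℝ) = ((j : ℝ) + 1) * p := by
      rw [hKdef]; push_cast; ring
    rw [← hKr] at hK
    have hrefl : ∀ s ∈ S, K - s ∈ S := by
      intro s hs
      exact hLat.refl ((j : ℤ) + 1) s hs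
    set s : ℤ := dn (x j) with hs
    set u : ℤ := up (x j) with hu
    set s' : ℤ := dn (x (j + 1)) with hs'
    set u' : ℤ := up (x (j + 1)) with hu'
    have hsj := hdt (x j)
    have huj := hut (x j)
    have hsj' := hdt (x (j + 1))
    have huj' := hut (x (j + 1))
    rw [← hs] at hsj
    rw [← hu] at huj
    rw [← hs'] at hsj'
    rw [← hu'] at huj'
    have hyjl := hyl j
    have hyjl' := hyl (j + 1)
    rw [← hs] at hyjl
    rw [← hs'] at hyjl'
    by_cases hc : ((K - s : ℤ) : ℝ) ≤ x (j + 1)
    · have h1 : K - s ≤ s' := hdmax (x (j + 1)) _ (hrefl s (hdS _)) hc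
      omega
    · push Not at hc
      have hc' : x (j + 1) < (K : ℝ) - s := by
        have := hc; push_cast at this; exact this
      have hsx : (s : ℝ) < x j := by linarith
      have hsu : s < u := by
        have : (s : ℝ) < u := lt_of_lt_of_le hsx huj
        exact_mod_cast this
      -- elements of S greater than s are at least u
      have hgap : ∀ a ∈ S, s < a → u ≤ a := by
        intro a ha hsa
        apply humin (x j) a ha
        by_contra h
        push Not at h
        have := hdmax (x j) a ha h.le
        rw [← hs] at this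
        omega
      have h1 : K - u ≤ s' := by
        apply hdmax (x (j + 1)) _ (hrefl u (huS _))
        push_cast; linarith
      have h2 : s' < K - s := by
        have : (s' : ℝ) < ((K - s : ℤ) : ℝ) := lt_of_le_of_lt hsj' hc
        exact_mod_cast this
      have h3 : u ≤ K - s' := hgap _ (hrefl s' (hdS _)) (by omega)
      have hs'eq : s' = K - u := by omega
      have h4 : u' ≤ K - s := humin (x (j + 1)) _ (hrefl s (hdS _)) hc.le
      have hu'eq : u' = K - s := by
        by_contra hne
        have h5 : u' < K - s := lt_of_le_of_ne h4 hne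
        have h6 : u ≤ K - u' := hgap _ (hrefl u' (huS _)) (by omega)
        have h7 : u' = s' := by
          have := hdu (x (j + 1))
          rw [← hs', ← hu'] at this
          omega
        have h8 : x (j + 1) = (s' : ℝ) := by
          apply le_antisymm _ hsj'
          rw [← h7]; exact huj'
        have h9 : (u : ℝ) ≤ x j := by
          rw [h8, hs'eq] at hK
          push_cast at hK
          linarith
        have h10 := hdmax (x j) u (huS _) h9
        rw [← hs] at h10
        omega
      have hsuR : (0 : ℝ) < (u : ℝ) - s := by
        have : (s : ℝ) < u := by exact_mod_cast hsu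
        linarith
      have hφ : posi dn up (x j) = (x j - s) / (u - s) := by
        unfold posi
        rw [← hs, ← hu]
      have hφ' : posi dn up (x (j + 1)) = (x (j + 1) - (K - u)) / (u - s) := by
        unfold posi
        rw [← hs', ← hu', hs'eq, hu'eq]
        push_cast
        congr 1
        ring
      have hsum : 1 ≤ posi dn up (x j) + posi dn up (x (j + 1)) := by
        rw [hφ, hφ', ← add_div, le_div_iff₀ hsuR]
        linarith
      have hyj : y j = rd θ (posi dn up (x j)) j s u := hy j
      have hyj' : y (j + 1) = rd θ (posi dn up (x (j + 1))) (j + 1) s' u' := hy (j + 1)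
      have hne : s ≠ u := hsu.ne
      by_cases hy1 : y j = u
      · omega
      · have hy2 : y j = s := by
          rcases rd_cases θ (posi dn up (x j)) j s u with h | h
          · rw [hyj, h]
          · exact absurd (hyj.trans h) hy1
        have hy3 : y (j + 1) = u' := by
          rw [hyj']
          unfold rd
          rcases Nat.mod_two_eq_zero_or_one j with he | ho
          · have he' : (j + 1) % 2 ≠ 0 := by omega
            rw [if_neg he', if_pos]
            have h5 : ¬ θ < posi dn up (x j) := by
              intro h
              apply hy1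
              rw [hyj]
              unfold rd
              rw [if_pos he, if_pos h]
            push Not at h5
            linarith
          · have he' : (j + 1) % 2 = 0 := by omega
            have ho' : j % 2 ≠ 0 := by omega
            rw [if_pos he', if_pos]
            have h5 : ¬ 1 - posi dn up (x j) ≤ θ := by
              intro h
              apply hy1
              rw [hyj]
              unfold rd
              rw [if_neg ho', if_pos h]
            push Not at h5
            linarith
        omega

end Pool.Agent.W196.WT
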